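import Pool.Agent.W200.MR.Stm

/-! Subtask 13694: S_DET from S_AP, S_MU, S_DEa, S_DEb. -/

open Finset Filter Topology

namespace Pool.Agent.W334.MR

open Pool.Agent.W200.MR

theorem norm_pw (s : ℝ) (n : ℕ) : ‖pw s n‖ = 1 := by
  unfold pw
  exact Complex.norm_exp_ofReal_mul_I _

theorem main_term (s : ℝ) (a N d : ℕ) (hN : 1 ≤ N) (hd : 1 ≤ d) :
    pw s d * ((((N:ℝ)/d : ℝ) : ℂ) * Complex.exp (((s * Real.log ((N:ℝ)/d) : ℝ) : ℂ) * Complex.I) /
      ((a : ℂ) * (1 + (s : ℂ) * Complex.I))) =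
    ((N:ℂ) * pw s N / ((a : ℂ) * (1 + (s : ℂ) * Complex.I))) * (1 / (d:ℂ)) := by
  have hN' : (0:ℝ) < N := by exact_mod_cast hN
  have hd' : (0:ℝ) < d := by exact_mod_cast hd
  have e : pw s N = pw s d * Complex.exp (((s * Real.log ((N:ℝ)/d) : ℝ) : ℂ) * Complex.I) := by
    unfold pw
    rw [← Complex.exp_add, Real.log_div hN'.ne' hd'.ne']
    congr 1
    push_cast
    ring
  rw [e]
  push_cast
  ring

theorem t_DET (hAP : S_AP) (hMU : S_MU) (hA : S_DEa) (hB : S_DEb) : S_DET := by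
  classical
  intro s η A hη hs
  have hs0 := abs_nonneg s
  obtain ⟨K, hK⟩ : ∃ K : ℝ, K = 4 + |s| * (A + 2) + |s| := ⟨_, rfl⟩
  have hK0 : 0 ≤ K := by rw [hK]; positivity
  obtain ⟨T0, hT0⟩ := hB K η hK0 hη
  refine ⟨max T0 (A + 2), ?_⟩
  intro T hT N hN a b ha haA
  have hT1 : T0 ≤ T := le_trans (le_max_left _ _) hT
  have hT2 : A + 2 ≤ T := le_trans (le_max_right _ _) hT
  have hN1 : 1 ≤ N := by omega
  obtain ⟨c, hc⟩ := hA s T a b N ha (by omega)
  have hsum := hT0 T hT1 N hN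
  have hmu := hMU T N hN1
  rw [hc]
  have hNpos : (0:ℝ) < N := by exact_mod_cast hN1
  have hapos : (1:ℝ) ≤ a := by exact_mod_cast ha
  have hkey : ∀ d ∈ (Icc 1 N).filter (fun d => Rough T d),
      ‖((ArithmeticFunction.moebius d : ℤ) : ℂ) * pw s d * SA s a (c d) (N / d) -
        ((N:ℂ) * pw s N / ((a : ℂ) * (1 + (s : ℂ) * Complex.I))) *
          (((ArithmeticFunction.moebius d : ℤ) : ℂ) / d)‖ ≤ K + K * Real.log ((N : ℝ) / d) := by
    intro d hd
    have hd1 : 1 ≤ d ∧ d ≤ N := by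
      have := (mem_filter.mp hd).1
      simpa using this
    have hdpos : (0:ℝ) < d := by exact_mod_cast hd1.1
    have hx : (1:ℝ) ≤ (N:ℝ)/d := by
      rw [le_div_iff₀ hdpos, one_mul]
      exact_mod_cast hd1.2
    have hlog : 0 ≤ Real.log ((N:ℝ)/d) := Real.log_nonneg hx
    have h1 := hAP s a (c d) ((N:ℝ)/d) ha hx
    rw [Nat.floor_div_eq_div] at h1
    have h2 := main_term s a N d hN1 hd1.1
    have h3 : ((ArithmeticFunction.moebius d : ℤ) : ℂ) * pw s d * SA s a (c d) (N / d) -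
        ((N:ℂ) * pw s N / ((a : ℂ) * (1 + (s : ℂ) * Complex.I))) *
          (((ArithmeticFunction.moebius d : ℤ) : ℂ) / d) =
        ((ArithmeticFunction.moebius d : ℤ) : ℂ) * (pw s d * (SA s a (c d) (N / d) -
          ((((N:ℝ)/d : ℝ) : ℂ) * Complex.exp (((s * Real.log ((N:ℝ)/d) : ℝ) : ℂ) * Complex.I) /
            ((a : ℂ) * (1 + (s : ℂ) * Complex.I))))) := by
      rw [mul_sub, h2]
      ring
    rw [h3, norm_mul, norm_mul, norm_pw, one_mul]
    have hmu1 : ‖((ArithmeticFunction.moebius d : ℤ) : ℂ)‖ ≤ 1 := by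
      rw [Complex.norm_intCast]
      exact_mod_cast ArithmeticFunction.abs_moebius_le_one
    have haA' : (a:ℝ) ≤ A := by exact_mod_cast haA
    have e1 : |s| * a ≤ |s| * A := mul_le_mul_of_nonneg_left haA' hs0
    have e2 : 0 ≤ |s| * Real.log ((N:ℝ)/d) := mul_nonneg hs0 hlog
    have e3 : |s| ≤ K := by
      rw [hK]
      have : 0 ≤ |s| * ((A:ℝ) + 2) := by positivity
      linarith
    have e4 : |s| * Real.log ((N:ℝ)/d) ≤ K * Real.log ((N:ℝ)/d) := mul_le_mul_of_nonneg_right e3 hlog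
    have e5 : 4 + |s| * (a + 2) ≤ K := by
      rw [hK]
      nlinarith
    calc _ ≤ 1 * (4 + |s| * (a + 2 + Real.log ((N:ℝ)/d))) := by
            refine mul_le_mul hmu1 h1 (norm_nonneg _) zero_le_one
      _ = (4 + |s| * (a + 2)) + |s| * Real.log ((N:ℝ)/d) := by ring
      _ ≤ K + K * Real.log ((N : ℝ) / d) := add_le_add e5 e4
  have hM : ‖(N:ℂ) * pw s N / ((a : ℂ) * (1 + (s : ℂ) * Complex.I))‖ ≤ N * η := by
    rw [norm_div, norm_mul, norm_mul, norm_pw, mul_one, Complex.norm_natCast, Complex.norm_natCast]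
    have hz : 0 ≤ 1 / ‖(1 : ℂ) + (s : ℂ) * Complex.I‖ := by positivity
    have : (N:ℝ) / ((a:ℝ) * ‖(1 : ℂ) + (s : ℂ) * Complex.I‖) =
        N * ((1 / a) * (1 / ‖(1 : ℂ) + (s : ℂ) * Complex.I‖)) := by
      rw [one_div_mul_one_div, mul_one_div]
    rw [this]
    refine mul_le_mul_of_nonneg_left ?_ hNpos.le
    have ha1 : 1 / (a:ℝ) ≤ 1 := by
      rw [div_le_one (by linarith)]
      exact hapos
    calc _ ≤ 1 * (1 / ‖(1 : ℂ) + (s : ℂ) * Complex.I‖) := mul_le_mul_of_nonneg_right ha1 hz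
      _ ≤ η := by rw [one_mul]; exact hs
  have hsplit : ∑ d ∈ (Icc 1 N).filter (fun d => Rough T d),
      ((ArithmeticFunction.moebius d : ℤ) : ℂ) * pw s d * SA s a (c d) (N / d) =
      ∑ d ∈ (Icc 1 N).filter (fun d => Rough T d),
        (((ArithmeticFunction.moebius d : ℤ) : ℂ) * pw s d * SA s a (c d) (N / d) -
        ((N:ℂ) * pw s N / ((a : ℂ) * (1 + (s : ℂ) * Complex.I))) *
          (((ArithmeticFunction.moebius d : ℤ) : ℂ) / d)) +
      ((N:ℂ) * pw s N / ((a : ℂ) * (1 + (s : ℂ) * Complex.I))) *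
        ((∑ d ∈ (Icc 1 N).filter (fun d => Rough T d),
          ((ArithmeticFunction.moebius d : ℤ) : ℝ) / (d : ℝ) : ℝ) : ℂ) := by
    rw [sum_sub_distrib]
    push_cast
    rw [mul_sum]
    ring
  rw [hsplit]
  refine le_trans (norm_add_le _ _) ?_
  have hfst : ‖∑ d ∈ (Icc 1 N).filter (fun d => Rough T d),
        (((ArithmeticFunction.moebius d : ℤ) : ℂ) * pw s d * SA s a (c d) (N / d) -
        ((N:ℂ) * pw s N / ((a : ℂ) * (1 + (s : ℂ) * Complex.I))) *
          (((ArithmeticFunction.moebius d : ℤ) : ℂ) / d))‖ ≤ η * N := by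
    refine le_trans (norm_sum_le _ _) ?_
    refine le_trans (sum_le_sum hkey) ?_
    exact hsum
  have hsnd : ‖((N:ℂ) * pw s N / ((a : ℂ) * (1 + (s : ℂ) * Complex.I))) *
        ((∑ d ∈ (Icc 1 N).filter (fun d => Rough T d),
          ((ArithmeticFunction.moebius d : ℤ) : ℝ) / (d : ℝ) : ℝ) : ℂ)‖ ≤ N * η := by
    rw [norm_mul, Complex.norm_real, Real.norm_eq_abs]
    calc _ ≤ (N * η) * 1 := mul_le_mul hM hmu (abs_nonneg _) (by positivity)
      _ = N * η := mul_one _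
  linarith

end Pool.Agent.W334.MR
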